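import Pool.Agent.N162.HN.Stm

/-!
# Project HN: the valuations over the hypersurface (uniqueness, ramification, residue field)
-/

set_option autoImplicit false
set_option linter.unusedSectionVars false

open FF Pool.Agent.W603.LV Pool.Agent.Y184.NT Pool.Agent.N162.BC IntermediateField MvPolynomial

namespace Pool.Agent.N433.HN.Hor

open Pool.Agent.N162.HN

section basic

variable {n : ℕ} {Ω E : Type} [Field Ω] [Field E] [Algebra Ω E]

theorem ge_X {v : Place Ω E} {X : Fin (n + 2) → E} {p : Fin (n + 2) → Ω} (h : At v X p)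
    (j : Fin (n + 2)) : Ge v 0 (X j) := by
  have := ((h j).mono (by norm_num : (0 : ℤ) ≤ 1)).add (Ge.const (P := v) (p j))
  simpa using this

theorem ge_eval {v : Place Ω E} {X : Fin (n + 2) → E} {p : Fin (n + 2) → Ω} (h : At v X p)
    (Q : MvPolynomial (Fin (n + 2)) Ω) : Ge v 1 (aeval X Q - algebraMap Ω E (eval p Q)) := by
  induction Q using MvPolynomial.induction_on with
  | C a =>
    rw [aeval_C, eval_C, sub_self]
    exact Ge.zero
  | add P Q hP hQ =>
    have e : aeval X (P + Q) - algebraMap Ω E (eval p (P + Q)) =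
        (aeval X P - algebraMap Ω E (eval p P)) + (aeval X Q - algebraMap Ω E (eval p Q)) := by
      simp only [map_add]; ring
    rw [e]
    exact hP.add hQ
  | mul_X P j hP =>
    have e : aeval X (P * MvPolynomial.X j) - algebraMap Ω E (eval p (P * MvPolynomial.X j)) =
        (aeval X P - algebraMap Ω E (eval p P)) * X j +
          algebraMap Ω E (eval p P) * (X j - algebraMap Ω E (p j)) := by
      simp only [map_mul, aeval_X, eval_X]; ring
    rw [e]
    refine Ge.add ?_ ?_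
    · simpa using hP.mul (ge_X h j)
    · simpa using (Ge.const (P := v) (eval p P)).mul (h j)

theorem ge_reg {v : Place Ω E} {X : Fin (n + 2) → E} (h : ∀ j, Ge v 0 (X j))
    (Q : MvPolynomial (Fin (n + 2)) Ω) : Ge v 0 (aeval X Q) := by
  induction Q using MvPolynomial.induction_on with
  | C a =>
    rw [aeval_C]
    exact Ge.const a
  | add P Q hP hQ =>
    rw [map_add]
    exact hP.add hQ
  | mul_X P j hP =>
    rw [map_mul, aeval_X]
    simpa using hP.mul (h j)

theorem const_zero {v : Place Ω E} {c : Ω} (h : Ge v 1 (algebraMap Ω E c)) : c = 0 := by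
  by_contra hc
  rcases h with h | h
  · exact hc ((map_eq_zero _).1 h)
  · rw [v.ord_const hc] at h
    omega

theorem const_unique {v : Place Ω E} {g : E} {c c' : Ω} (h : Ge v 1 (g - algebraMap Ω E c))
    (h' : Ge v 1 (g - algebraMap Ω E c')) : c = c' := by
  have h1 : Ge v 1 (algebraMap Ω E (c - c')) := by
    have := h'.sub h
    have e : g - algebraMap Ω E c' - (g - algebraMap Ω E c) = algebraMap Ω E (c - c') := by
      rw [map_sub]; ring
    rwa [e] at this
  exact sub_eq_zero.1 (const_zero h1)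

theorem ne_of_unit {v : Place Ω E} {g : E} {c : Ω} (h : Ge v 1 (g - algebraMap Ω E c))
    (hc : c ≠ 0) : g ≠ 0 ∧ v.ord g = 0 := by
  have hc' : algebraMap Ω E c ≠ 0 := by rwa [Ne, map_eq_zero]
  by_cases h0 : g - algebraMap Ω E c = 0
  · rw [sub_eq_zero.1 h0]
    exact ⟨hc', v.ord_const hc⟩
  · have h1 := h.resolve_left h0
    have h2 := v.ord_add_eq hc' h0 (by rw [v.ord_const hc]; omega)
    rw [add_sub_cancel, v.ord_const hc] at h2
    exact h2

theorem unit_iff {v : Place Ω E} {g : E} {c : Ω} (h : Ge v 1 (g - algebraMap Ω E c)) :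
    c ≠ 0 ↔ g ≠ 0 ∧ Ge v 0 g⁻¹ := by
  constructor
  · intro hc
    obtain ⟨h1, h2⟩ := ne_of_unit h hc
    refine ⟨h1, Or.inr ?_⟩
    rw [v.ord_inv, h2]
    norm_num
  · rintro ⟨h1, h2⟩ rfl
    rw [map_zero, sub_zero] at h
    have h3 := h.resolve_left h1
    have h4 := h2.resolve_left (inv_ne_zero h1)
    rw [v.ord_inv] at h4
    omega

theorem hom_div (X : Fin (n + 2) → E) (F : MvPolynomial (Fin (n + 2)) Ω) (d : ℕ)
    (hF : F.IsHomogeneous d) (u : E) :
    aeval X F / u ^ d = aeval (fun i => X i / u) F := by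
  rw [aeval_def, aeval_def, eval₂_eq', eval₂_eq', Finset.sum_div]
  refine Finset.sum_congr rfl fun m hm => ?_
  have h1 : ∑ i, m i = d := by
    have h2 := hF (mem_support_iff.1 hm)
    rw [← h2]
    simp [Finsupp.weight_apply, Finsupp.sum_fintype]
  rw [mul_div_assoc]
  congr 1
  rw [← h1]
  simp only [div_pow]
  rw [Finset.prod_div_distrib, Finset.prod_pow_eq_pow_sum]

end basic

section emb

variable {n : ℕ} {K Ω : Type} [Field K] [Algebra ℂ K] [Field Ω] [Algebra ℂ Ω]

theorem exists_emb (x : Fin (n + 2) → K) (hx : IntermediateField.adjoin ℂ (Set.range x) = ⊤)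
    (p : Fin (n + 2) → Ω)
    (h : ∀ P : MvPolynomial (Fin (n + 2)) ℂ, aeval x P = 0 ↔ aeval p P = 0) :
    ∃ σ : K →ₐ[ℂ] Ω, ∀ j, σ (x j) = p j := by
  obtain ⟨φ, hφ⟩ : ∃ φ : MvPolynomial (Fin (n + 2)) ℂ →ₐ[ℂ] K, φ = aeval x := ⟨_, rfl⟩
  have hsurj : Function.Surjective φ.rangeRestrict := φ.rangeRestrict_surjective
  have hker : ∀ P ∈ RingHom.ker φ.rangeRestrict,
      (aeval p : MvPolynomial (Fin (n + 2)) ℂ →ₐ[ℂ] Ω) P = 0 := by
    intro P hP
    rw [RingHom.mem_ker] at hP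
    rw [← h, ← hφ]
    exact congrArg Subtype.val hP
  let g : φ.range →ₐ[ℂ] Ω := (Ideal.Quotient.liftₐ (RingHom.ker φ.rangeRestrict)
    (aeval p : MvPolynomial (Fin (n + 2)) ℂ →ₐ[ℂ] Ω) hker).comp
    (Ideal.quotientKerAlgEquivOfSurjective hsurj).symm.toAlgHom
  have hg : ∀ P, g (φ.rangeRestrict P) = aeval p P := by
    intro P
    show (Ideal.Quotient.liftₐ (RingHom.ker φ.rangeRestrict) _ hker)
      ((Ideal.quotientKerAlgEquivOfSurjective hsurj).symm (φ.rangeRestrict P)) = _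
    have h1 : (Ideal.quotientKerAlgEquivOfSurjective hsurj).symm (φ.rangeRestrict P) =
        Ideal.Quotient.mk _ P := by
      rw [AlgEquiv.symm_apply_eq]
      rfl
    rw [h1]
    rfl
  have hinj : Function.Injective g := by
    rw [injective_iff_map_eq_zero]
    intro a ha
    obtain ⟨P, rfl⟩ := hsurj a
    rw [hg, ← h, ← hφ] at ha
    exact Subtype.ext ha
  have hfrac : IsFractionRing φ.range K := by
    have : FaithfulSMul φ.range K :=
      (faithfulSMul_iff_algebraMap_injective _ _).2 Subtype.val_injective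
    refine IsFractionRing.of_field _ _ fun z => ?_
    have hz : z ∈ IntermediateField.adjoin ℂ (Set.range x) := by rw [hx]; trivial
    rw [IntermediateField.mem_adjoin_range_iff] at hz
    obtain ⟨r, s, hrs⟩ := hz
    refine ⟨φ.rangeRestrict r, φ.rangeRestrict s, ?_⟩
    rw [hrs, ← hφ]
    rfl
  refine ⟨IsFractionRing.liftAlgHom (K := K) hinj, fun j => ?_⟩
  have h2 : algebraMap φ.range K (φ.rangeRestrict (MvPolynomial.X j)) = x j := by
    show φ (MvPolynomial.X j) = x j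
    rw [hφ, aeval_X]
  rw [← h2, IsFractionRing.liftAlgHom_apply, IsFractionRing.lift_algebraMap]
  show g _ = _
  rw [hg, aeval_X]

end emb

section gal

variable {L K Ω : Type} [Field L] [Algebra ℂ L] [Field K] [Algebra ℂ K]
  [Algebra L K] [Field Ω] [Algebra ℂ Ω] [Algebra L Ω] [IsAlgClosed Ω] [Algebra.IsAlgebraic L Ω]

/-- the embedding as a homomorphism over `L` -/
def hL (σ : K →ₐ[ℂ] Ω) (hσ : Fix L σ) : K →ₐ[L] Ω :=
  { σ.toRingHom with commutes' := hσ }

theorem hL_apply (σ : K →ₐ[ℂ] Ω) (hσ : Fix L σ) (k : K) : hL σ hσ k = σ k := rfl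

theorem exists_tau (σ σ' : K →ₐ[ℂ] Ω) (hσ : Fix L σ) (hσ' : Fix L σ') :
    ∃ τ : Ω ≃ₐ[L] Ω, ∀ k, τ (σ k) = σ' k := by
  have : IsAlgClosure L Ω := ⟨inferInstance, inferInstance⟩
  have : Normal L Ω := IsAlgClosure.normal L Ω
  let χ : (hL σ hσ).fieldRange ≃ₐ[L] (hL σ' hσ').fieldRange :=
    (hL σ hσ).equivFieldRange.symm.trans (hL σ' hσ').equivFieldRange
  refine ⟨χ.liftNormal Ω, fun k => ?_⟩
  have h1 := χ.liftNormal_commutes Ω ((hL σ hσ).equivFieldRange k)
  have h2 : χ ((hL σ hσ).equivFieldRange k) = (hL σ' hσ').equivFieldRange k := by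
    show (hL σ' hσ').equivFieldRange ((hL σ hσ).equivFieldRange.symm _) = _
    rw [AlgEquiv.symm_apply_apply]
  rw [h2] at h1
  exact h1

theorem mem_range (σ : K →ₐ[ℂ] Ω) (hσ : Fix L σ) (c : Ω)
    (hc : ∀ τ : Ω ≃ₐ[L] Ω, (∀ k, τ (σ k) = σ k) → τ c = c) : ∃ k, σ k = c := by
  have : CharZero L := charZero_of_injective_algebraMap (algebraMap ℂ L).injective
  have : CharZero (hL σ hσ).fieldRange :=
    charZero_of_injective_algebraMap (algebraMap L (hL σ hσ).fieldRange).injective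
  have : Algebra.IsAlgebraic (hL σ hσ).fieldRange Ω := Algebra.IsAlgebraic.tower_top (K := L) _
  have : IsAlgClosure (hL σ hσ).fieldRange Ω := ⟨inferInstance, inferInstance⟩
  have : IsGalois (hL σ hσ).fieldRange Ω := ⟨⟩
  have h1 : c ∈ (⊥ : IntermediateField (hL σ hσ).fieldRange Ω) := by
    rw [InfiniteGalois.mem_bot_iff_fixed]
    intro f
    exact hc (f.restrictScalars L) (fun k => f.commutes ⟨σ k, ⟨k, rfl⟩⟩)
  rw [IntermediateField.mem_bot] at h1
  obtain ⟨m, hm⟩ := h1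
  obtain ⟨k, hk⟩ := m.2
  exact ⟨k, by rw [← hm]; exact hk⟩

end gal

section main

variable {L K Ω : Type} [Field L] [Algebra ℂ L] [Field K] [Algebra ℂ K]
  [Algebra L K] [Field Ω] [Algebra ℂ Ω] [Algebra L Ω] [IsScalarTower ℂ L Ω]
  [IsAlgClosed Ω] {n : ℕ}

theorem loc (hPLC : StPLC) (hC1 : StC1) (F : MvPolynomial (Fin (n + 2)) ℂ) (d : ℕ)
    (hF : F.IsHomogeneous d) (x : Fin (n + 2) → K) (hFx : aeval x F = 0)
    (hx : IntermediateField.adjoin ℂ (Set.range x) = ⊤) (C : Crv n Ω) (hP : Pen L F x C)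
    (O : ValuationSubring C.E) (hO : Ctr x C O) (hΩ : ∀ a : Ω, algebraMap Ω C.E a ∈ O) :
    ∃ (v : Place Ω C.E) (σ : K →ₐ[ℂ] Ω), (∀ f, f ∈ O ↔ Ge v 0 f) ∧ At v C.X (pt x σ) ∧ Fix L σ ∧
      (∀ w, At w C.X (pt x σ) → w = v) ∧ v.ord (cmp Ω F C.X) = 1 := by
  classical
  have : CharZero Ω := charZero_of_injective_algebraMap (algebraMap ℂ Ω).injective
  have hF0 := hP.ne
  have hOtop : O ≠ ⊤ := by
    rintro rfl
    exact ((hO F).2.2 ⟨hF0, trivial⟩) hFx
  obtain ⟨v, hv⟩ := hPLC Ω C.E O hΩ hOtop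
  have hX : ∀ j, Ge v 0 (C.X j) := by
    intro j
    rw [← hv]
    have := (hO (MvPolynomial.X j)).1
    simpa [Pool.Agent.N162.HN.cmp] using this
  choose p hp using fun j => exists_const v (hX j)
  have hat : At v C.X p := hp
  have hval : ∀ P : MvPolynomial (Fin (n + 2)) ℂ,
      Ge v 1 (cmp Ω P C.X - algebraMap Ω C.E (aeval p P)) := by
    intro P
    have := ge_eval hat (map (algebraMap ℂ Ω) P)
    rwa [eval_map, ← aeval_def] at this
  have hiff : ∀ P : MvPolynomial (Fin (n + 2)) ℂ, aeval x P = 0 ↔ aeval p P = 0 := by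
    intro P
    have h1 := (hO P).2
    rw [hv] at h1
    rw [← not_iff_not, ← Ne, h1, ← unit_iff (hval P)]
  obtain ⟨σ, hσ⟩ := exists_emb x hx p hiff
  have hpt : pt x σ = p := funext hσ
  have hge1 : ∀ w, At w C.X p → 1 ≤ w.ord (cmp Ω F C.X) := by
    intro w hw
    have h1 := ge_eval hw (map (algebraMap ℂ Ω) F)
    rw [eval_map, ← aeval_def, (hiff F).1 hFx, map_zero, sub_zero] at h1
    exact h1.resolve_left hF0
  have hc1 := hC1 n Ω C.E C.X C.good (cmp Ω F C.X) d hF0 (fun w hw => ge_reg (C.good.fin w hw) _)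
    (fun w hw => by
      unfold Pool.Agent.N162.HN.cmp
      rw [hom_div C.X _ d (hF.map _) (C.X 1)]
      exact ge_reg (C.good.inf w hw) _)
  have hmu : mu C.X (cmp Ω F C.X) (pt x σ) ≠ 0 := by
    rw [hpt]
    exact (hc1.2.1 p).2 ⟨v, hat, hge1 v hat⟩
  obtain ⟨hmu1, hfix⟩ := hP.mult σ hmu
  have hfin : {w : Place Ω C.E | At w C.X p}.Finite := by
    refine (finite_support (cmp Ω F C.X)).subset ?_
    intro w hw
    have := hge1 w hw
    show w.ord _ ≠ 0
    omega
  have hsum : ∑ w ∈ hfin.toFinset, w.ord (cmp Ω F C.X) = 1 := by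
    rw [← finsum_mem_eq_finite_toFinset_sum, ← hmu1, hpt]
    rfl
  have hvm : v ∈ hfin.toFinset := by
    rw [Set.Finite.mem_toFinset]
    exact hat
  have hcard : (hfin.toFinset.card : ℤ) ≤ 1 := by
    rw [← hsum]
    calc (hfin.toFinset.card : ℤ) = ∑ w ∈ hfin.toFinset, (1 : ℤ) := by simp
      _ ≤ _ := Finset.sum_le_sum fun w hw => hge1 w (by
        rw [Set.Finite.mem_toFinset] at hw
        exact hw)
  have hsing : ∀ w, At w C.X p → w = v := by
    intro w hw
    have hwm : w ∈ hfin.toFinset := by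
      rw [Set.Finite.mem_toFinset]
      exact hw
    exact Finset.card_le_one.1 (by exact_mod_cast hcard) w hwm v hvm
  have heq : hfin.toFinset = {v} := by
    ext w
    rw [Finset.mem_singleton]
    refine ⟨fun h => hsing w (by rw [Set.Finite.mem_toFinset] at h; exact h), ?_⟩
    rintro rfl
    exact hvm
  rw [heq, Finset.sum_singleton] at hsum
  exact ⟨v, σ, hv, by rw [hpt]; exact hat, hfix, by rw [hpt]; exact hsing, hsum⟩

/-- the field generated by `L` and the coordinates -/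
abbrev E₀ (L : Type) {Ω : Type} [Field L] [Field Ω] [Algebra L Ω] {n : ℕ} (C : Crv n Ω) :
    Subfield C.E :=
  Subfield.closure (Set.range (fun a : L => algebraMap Ω C.E (algebraMap L Ω a)) ∪
      Set.range C.X)

theorem psi (hPSI : StPSI) (F : MvPolynomial (Fin (n + 2)) ℂ) (x : Fin (n + 2) → K)
    (C : Crv n Ω) (hP : Pen L F x C) {v v' : Place Ω C.E} {σ σ' : K →ₐ[ℂ] Ω} (hσ : Fix L σ)
    (hσ' : Fix L σ') (hv : At v C.X (pt x σ)) (hv' : At v' C.X (pt x σ'))
    (huniq : ∀ w, At w C.X (pt x σ') → w = v') (τ : Ω ≃ₐ[L] Ω) (hτ : ∀ k, τ (σ k) = σ' k) :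
    ∃ Ψ : C.E ≃+* C.E, (∀ a, Ψ (algebraMap Ω C.E a) = algebraMap Ω C.E (τ a)) ∧
      (∀ e ∈ E₀ L C, Ψ e = e) ∧ ∀ f, f ≠ 0 → v'.ord (Ψ f) = v.ord f := by
  have : CharZero Ω := charZero_of_injective_algebraMap (algebraMap ℂ Ω).injective
  have hpt : (fun j => τ (pt x σ j)) = pt x σ' := funext fun j => hτ _
  have hpt' : (fun j => τ.symm (pt x σ' j)) = pt x σ := by
    funext j
    rw [AlgEquiv.symm_apply_eq]
    exact (hτ _).symm
  have h1 : ∀ P : MvPolynomial (Fin (n + 2)) Ω, aeval C.X P = 0 →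
      aeval C.X (map ((τ : Ω ≃+* Ω) : Ω →+* Ω) P) = 0 :=
    hP.conj σ hσ ⟨v, hv⟩ τ (by rw [hpt]; exact ⟨v', hv'⟩)
  have h2 : ∀ P : MvPolynomial (Fin (n + 2)) Ω, aeval C.X P = 0 →
      aeval C.X (map ((τ.symm : Ω ≃+* Ω) : Ω →+* Ω) P) = 0 :=
    hP.conj σ' hσ' ⟨v', hv'⟩ τ.symm (by rw [hpt']; exact ⟨v, hv⟩)
  obtain ⟨Ψ, hΨ1, hΨ2, hΨ3⟩ := hPSI n Ω C (τ : Ω ≃+* Ω) (fun P => ⟨h1 P, fun h => by
    have h3 := h2 _ h
    rw [MvPolynomial.map_map] at h3
    have h4 : ((τ.symm : Ω ≃+* Ω) : Ω →+* Ω).comp ((τ : Ω ≃+* Ω) : Ω →+* Ω) = RingHom.id Ω := by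
      ext a
      exact τ.symm_apply_apply a
    rw [h4, MvPolynomial.map_id] at h3
    exact h3⟩)
  refine ⟨Ψ, hΨ1, ?_, ?_⟩
  · have h5 : Set.EqOn (Ψ : C.E →+* C.E) (RingHom.id C.E)
        (Subfield.closure (Set.range (fun a : L => algebraMap Ω C.E (algebraMap L Ω a)) ∪
          Set.range C.X)) := by
      apply RingHom.eqOn_field_closure
      rintro _ (⟨a, rfl⟩ | ⟨j, rfl⟩)
      · show Ψ _ = _
        rw [hΨ1]
        show algebraMap Ω C.E (τ (algebraMap L Ω a)) = algebraMap Ω C.E (algebraMap L Ω a)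
        rw [τ.commutes]
      · exact hΨ2 j
    exact fun e he => h5 he
  · obtain ⟨w, hw⟩ := hΨ3 v
    have hww : w = v' := by
      apply huniq
      intro j
      have h6 : C.X j - algebraMap Ω C.E (pt x σ' j) =
          Ψ (C.X j - algebraMap Ω C.E (pt x σ j)) := by
        rw [map_sub, hΨ2, hΨ1]
        congr 2
        exact (hτ _).symm
      rw [h6]
      rcases hv j with h | h
      · left
        rw [h, map_zero]
      · by_cases h0 : C.X j - algebraMap Ω C.E (pt x σ j) = 0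
        · left
          rw [h0, map_zero]
        · right
          rw [hw _ h0]
          exact h
    intro f hf
    rw [← hww]
    exact hw f hf

end main

end Pool.Agent.N433.HN.Hor

namespace Pool.Agent.N433.HN

open Pool.Agent.N162.HN Hor

theorem hor_ (hPLC : StPLC) (hPSI : StPSI) (hC1 : StC1) : StHOR := by
  intro n L K Ω _ _ _ _ _ _ _ _ _ _ _ _ _ F d hn hSm hF hd x hx0 hFx hx htr hRel C hP hV
  have : CharZero Ω := charZero_of_injective_algebraMap (algebraMap ℂ Ω).injective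
  constructor
  · intro O O' hO hO' e he heO
    obtain ⟨v, σ, hv, hat, hfix, huni, hord⟩ := loc hPLC hC1 F d hF x hFx hx C hP O hO (hV O hO)
    obtain ⟨v', σ', hv', hat', hfix', huni', hord'⟩ :=
      loc hPLC hC1 F d hF x hFx hx C hP O' hO' (hV O' hO')
    obtain ⟨τ, hτ⟩ := exists_tau σ σ' hfix hfix'
    obtain ⟨Ψ, -, hΨ2, hΨ3⟩ := psi hPSI F x C hP hfix hfix' hat hat' huni' τ hτ
    rw [hv] at heO
    rw [hv']
    by_cases h0 : e = 0
    · exact Or.inl h0
    · right
      have h1 := hΨ3 e h0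
      rw [hΨ2 e he] at h1
      rw [h1]
      exact heO.resolve_left h0
  · intro O hO e he heO
    obtain ⟨v, σ, hv, hat, hfix, huni, hord⟩ := loc hPLC hC1 F d hF x hFx hx C hP O hO (hV O hO)
    rw [hv] at heO
    obtain ⟨c, hc⟩ := exists_const v heO
    obtain ⟨k, hk⟩ := mem_range σ hfix c (fun τ hτ => by
      obtain ⟨Ψ, hΨ1, hΨ2, hΨ3⟩ := psi hPSI F x C hP hfix hfix hat hat huni τ hτ
      have h1 : Ge v 1 (e - algebraMap Ω C.E (τ c)) := by
        have h2 : e - algebraMap Ω C.E (τ c) = Ψ (e - algebraMap Ω C.E c) := by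
          rw [map_sub, hΨ1, hΨ2 e he]
        rw [h2]
        by_cases h0 : e - algebraMap Ω C.E c = 0
        · left
          rw [h0, map_zero]
        · right
          rw [hΨ3 _ h0]
          exact hc.resolve_left h0
      exact const_unique h1 hc)
    have hkx : k ∈ IntermediateField.adjoin ℂ (Set.range x) := by rw [hx]; trivial
    rw [IntermediateField.mem_adjoin_range_iff] at hkx
    obtain ⟨P, Q, hPQ, hQ⟩ : ∃ P Q : MvPolynomial (Fin (n + 2)) ℂ,
        k = aeval x P / aeval x Q ∧ aeval x Q ≠ 0 := by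
      obtain ⟨P, Q, h⟩ := hkx
      by_cases hQ : aeval x Q = 0
      · refine ⟨0, 1, ?_, ?_⟩
        · rw [h, hQ, div_zero, map_zero, zero_div]
        · rw [map_one]; exact one_ne_zero
      · exact ⟨P, Q, h, hQ⟩
    refine ⟨P, Q, hQ, ?_⟩
    have hval : ∀ R : MvPolynomial (Fin (n + 2)) ℂ,
        Ge v 1 (cmp Ω R C.X - algebraMap Ω C.E (σ (aeval x R))) := by
      intro R
      have h1 := ge_eval hat (map (algebraMap ℂ Ω) R)
      rw [eval_map, ← aeval_def] at h1
      have h2 : σ (aeval x R) = aeval (pt x σ) R := by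
        rw [← AlgHom.comp_apply, MvPolynomial.comp_aeval]
        rfl
      rw [h2]
      exact h1
    have hQσ : σ (aeval x Q) ≠ 0 := by rwa [Ne, map_eq_zero]
    obtain ⟨hQ0, hQord⟩ := ne_of_unit (hval Q) hQσ
    have hQσ' : algebraMap Ω C.E (σ (aeval x Q)) ≠ 0 := by rwa [Ne, map_eq_zero]
    have h3 : Ge v 1 (cmp Ω P C.X / cmp Ω Q C.X - algebraMap Ω C.E c) := by
      have h4 : cmp Ω P C.X / cmp Ω Q C.X - algebraMap Ω C.E c =
          ((cmp Ω P C.X - algebraMap Ω C.E (σ (aeval x P))) -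
            algebraMap Ω C.E c * (cmp Ω Q C.X - algebraMap Ω C.E (σ (aeval x Q)))) *
            (cmp Ω Q C.X)⁻¹ := by
        have h5 : algebraMap Ω C.E c = algebraMap Ω C.E (σ (aeval x P)) /
            algebraMap Ω C.E (σ (aeval x Q)) := by
          rw [← hk, hPQ, map_div₀, map_div₀]
        rw [h5]
        field_simp
        ring
      rw [h4]
      have h6 : Ge v 0 (cmp Ω Q C.X)⁻¹ := by
        right
        rw [v.ord_inv, hQord]
        norm_num
      have h7 : Ge v 1 (algebraMap Ω C.E c *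
          (cmp Ω Q C.X - algebraMap Ω C.E (σ (aeval x Q)))) := by
        simpa using (Ge.const (P := v) c).mul (hval Q)
      simpa using ((hval P).sub h7).mul h6
    have h8 : Ge v 1 (e - cmp Ω P C.X / cmp Ω Q C.X) := by
      have h9 := hc.sub h3
      have h10 : e - algebraMap Ω C.E c - (cmp Ω P C.X / cmp Ω Q C.X - algebraMap Ω C.E c) =
          e - cmp Ω P C.X / cmp Ω Q C.X := by ring
      rwa [h10] at h9
    rw [hv]
    have h11 : Ge v (-1) (cmp Ω F C.X)⁻¹ := by
      right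
      rw [v.ord_inv, hord]
    have h12 := h8.mul h11
    rw [← div_eq_mul_inv] at h12
    simpa using h12

end Pool.Agent.N433.HN
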